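import Pool.Agent.helper4.QS.Spec

/-! qs:SUB -/

open scoped BigOperators ComplexOrder ComplexConjugate Topology

namespace Pool.Agent.QS

open Pool.Agent.helper86.CM Filter

theorem SUB : SUB_stmt := by
  intro ι _ f hf
  have hc : IsCompact (Set.pi Set.univ fun _ : ι => Metric.closedBall (0 : ℂ) 1) :=
    isCompact_univ_pi fun _ => isCompact_closedBall _ _
  obtain ⟨g, _, φ, hφ, hlim⟩ := hc.tendsto_subseq (x := f) (fun j => by
    intro x _
    rw [mem_closedBall_zero_iff]
    exact hf j x)
  exact ⟨φ, g, hφ, fun x => (tendsto_pi_nhds.1 hlim) x⟩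

end Pool.Agent.QS
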